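import Mathlib
import Pool.Agent.MP_fe418c_co.Mul

/-! The set of lengths of three-phase Golay triads is closed under multiplication by
`3 ^ a * 7 ^ b` for `b ≤ a`. -/

open Pool.Agent.MP_fe418c_co

theorem Pool.Agent.Results.MP_fe418c_co.TimesTwentyOne.result (s a b : ℕ) (hab : b ≤ a)
    (hs : HasTriad s) : HasTriad (3 ^ a * 7 ^ b * s) :=
  main s a b hab hs
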